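import Mathlib
import Pool.Agent.Lib.MP_b69e89_co_W.Dense

/-!
# MP_b69e89_co : the closed form fails from excess `(2 + 9/s) g` on for many vertices

`closed (2l-d) (3l-d) = (6l-2d)! / (2^(3l-d) (3l-d)!) [x^(6l-2d)] (e^x - 1 - x - x^2/2)^(2l-d)` is
the weighted number of all multigraphs with excess `l`, deficiency `d` and minimum degree at least
three.

If `s ≥ 1`, `a ≥ 2` and `(100 a)^(90 s) ≤ g`, then `|K_g(2l-d, 3l-d)|` is smaller than the closed
form for all `(l, d)` with `l ≥ (2 + 9/s) g` and `2l-d ≥ 9 g / a`.

So for `n = 2l-d` at least about `g^(1 - 1/(90 s))` the threshold of the closed form is at most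
`(2 + 9/s) g`. It is at least `(2 + 1/(6r)) g` for `n` at most about `g^(1 - 1/(r+1))`
(`FewVertices`).

Proof: the Cayley multigraph of `a` matrices which generate a free group, modulo a number
`(100 a^2)^(γ+1)`, has girth at least `γ`; disjoint copies of it do not embed by Euler's formula.
-/

namespace Pool.Agent.Results.MP_b69e89_co.DenseFailure

open KernelCount

theorem result (g s a l d : ℕ) (hs : 1 ≤ s) (ha : 2 ≤ a) (hg : (100 * a) ^ (90 * s) ≤ g)
    (hl : (2 * s + 9) * g ≤ s * l) (hd : 9 * g + a * d ≤ a * (2 * l)) :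
    kernelCount g (2 * l - d) (3 * l - d) < closed (2 * l - d) (3 * l - d) :=
  closed_fails_dense hs ha hg hl hd

end Pool.Agent.Results.MP_b69e89_co.DenseFailure
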