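import Mathlib
import Pool.Agent.Lib.MP_b69e89_co_L.Final
import Pool.Agent.Lib.MP_b69e89_co_L.Converse
import Pool.Agent.Lib.MP_b69e89_co_L.Planar
import Pool.Agent.Lib.MP_b69e89_co.Complete

/-!
# MP_b69e89_co : the closed form holds up to excess `2 g + Θ(g / log g)`

`closed (2l-d) (3l-d) = (6l-2d)! / (2^(3l-d) (3l-d)!) [x^(6l-2d)] (e^x - 1 - x - x^2/2)^(2l-d)` is
the weighted number of all multigraphs with excess `l`, deficiency `d` and minimum degree at least
three.

* For every genus `g` and every admissible pair `(l, d)` with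
  `l ≤ 2 g + 1 + max (1, ⌊l / (60 (⌊log₂ l⌋ + 2))⌋)` all of them embed on `S_g`, and
  `|K_g(2l-d, 3l-d)|` is equal to the closed form. The same holds if the complete graph on
  `n = 2 l - d` vertices embeds on `S_g`, in particular if `n ≤ 4`, if `g ≥ 1` and `n ≤ 7`, or if
  `n (n - 3) / 2 ≤ 2 g + 1`.
* There is a constant `C` such that for every `g ≥ 1` there is `N` with
  `N log₂ g ≤ 2 g log₂ g + C g` such that `|K_g(2l-d, 3l-d)|` is smaller than the closed form for
  all `l ≥ N` and all `d` with `2l-d ≥ N`.
* If `|K_g(2l-d, 3l-d)|` is smaller than the closed form for a pair `(l, d)`, then also for all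
  pairs `(l', d')` with `l' ≥ l` and `2l'-d' ≥ 2l-d`.
* For fixed `n`, the value is equal to the closed form for all `(l, d)` with `2l-d = n` if and only
  if `K_n` embeds on `S_g`.
* For `g = 0` the value is equal to the closed form if and only if `l ≤ 2`, or `2l-d ≤ 4`, or
  `2l-d = 5` and `l ≤ 4`.

Proof of the first part: a rotation system can be chosen such that given directed closed walks are
faces, if the prescribed successions at each vertex have no cycle. In each component there are two
such walks (two cycles which share one chord, from the end of a longest path), and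
`l / (20 (log₂ l + 2))` edge-disjoint cycles if its excess is `l`: short cycles are removed one
after the other, found by counting non-backtracking walks.

Proof of the second part: disjoint copies of a 4-regular Cayley multigraph of matrices modulo
`4 * 3 ^ γ` have girth at least `γ` and do not embed by Euler's formula; then loops are added and
vertices are split.
-/

namespace Pool.Agent.Results.MP_b69e89_co.ExcessThreshold

open KernelCount

theorem result :
    (∀ g l d : ℕ, d ≤ 2 * l →
      (l ≤ 2 * g + 1 + max 1 (l / (60 * (Nat.log 2 l + 2))) ∨ 2 * l - d ≤ 4 ∨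
        (1 ≤ g ∧ 2 * l - d ≤ 7) ∨ (2 * l - d).choose 2 ≤ (2 * l - d) + 2 * g + 1 ∨
        EmbedsOn g (fun p : {p : Sym2 (Fin (2 * l - d)) // ¬ p.IsDiag} =>
          (p : Sym2 (Fin (2 * l - d))))) →
      kernelCount g (2 * l - d) (3 * l - d) = closed (2 * l - d) (3 * l - d)) ∧
    (∃ C : ℕ, ∀ g : ℕ, 1 ≤ g → ∃ N : ℕ, N * Nat.log 2 g ≤ 2 * g * Nat.log 2 g + C * g ∧
      ∀ l d : ℕ, N ≤ l → N + d ≤ 2 * l →
        kernelCount g (2 * l - d) (3 * l - d) < closed (2 * l - d) (3 * l - d)) ∧
    (∀ g l d l' d' : ℕ, d ≤ 2 * l → d' ≤ 2 * l' → l ≤ l' → 2 * l - d ≤ 2 * l' - d' →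
      kernelCount g (2 * l - d) (3 * l - d) < closed (2 * l - d) (3 * l - d) →
      kernelCount g (2 * l' - d') (3 * l' - d') < closed (2 * l' - d') (3 * l' - d')) ∧
    (∀ g n : ℕ, (∀ l d : ℕ, d ≤ 2 * l → 2 * l - d = n →
      kernelCount g (2 * l - d) (3 * l - d) = closed (2 * l - d) (3 * l - d)) ↔
      EmbedsOn g (fun p : {p : Sym2 (Fin n) // ¬ p.IsDiag} => (p : Sym2 (Fin n)))) ∧
    (∀ l d : ℕ, d ≤ 2 * l →
      (kernelCount 0 (2 * l - d) (3 * l - d) = closed (2 * l - d) (3 * l - d) ↔
        l ≤ 2 ∨ 2 * l - d ≤ 4 ∨ (2 * l - d = 5 ∧ l ≤ 4))) := by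
  refine ⟨fun g l d hd h => ?_, closed_fails, fun g l d l' d' => closed_fails_mono,
    closed_column_iff, planar_iff⟩
  rcases h with h | h | h | h | h
  · have e : 3 * l - d - (2 * l - d) = l := by omega
    exact kernelCount_of_excess_log (by rw [e]; exact h)
  · exact kernelCount_of_complete h (K4_embeds g) _
  · exact kernelCount_of_complete h.2 (K7_embeds h.1) _
  · exact kernelCount_of_complete le_rfl (complete_of_choose h) _
  · exact kernelCount_of_complete le_rfl h _

end Pool.Agent.Results.MP_b69e89_co.ExcessThreshold
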