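import Mathlib
import Pool.Agent.Lib.MP_b69e89_co_L.Few
import Pool.Agent.Lib.MP_b69e89_co_L.Dense

/-!
# MP_b69e89_co : the range of the closed form for kernels with few vertices

`closed (2l-d) (3l-d) = (6l-2d)! / (2^(3l-d) (3l-d)!) [x^(6l-2d)] (e^x - 1 - x - x^2/2)^(2l-d)` is
the weighted number of all multigraphs with excess `l`, deficiency `d` and minimum degree at least
three. Let `n = 2l-d` be the number of vertices.

* If `n < δ^r` for some `δ` and `r ≥ 1` and `l ≤ 2g+1+max (1, ⌊(3l-d-δn)/(6r)⌋)`, the value is equal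
  to the closed form. In particular (`δ = ⌊l/(2n)⌋`) if `n < ⌊l/(2n)⌋^r` and
  `l ≤ 2g+1+max (1, ⌊l/(12r)⌋)`: for `n` at most about `g^(r/(r+1))` the closed form holds up to
  excess `(2 + 1/(6r)) g`.
* If some multigraph with `n₀ ≥ 1` vertices, `m₀` edges, all degrees at least three and all cycles
  of length at least `γ` satisfies `2m₀ + γ(n₀+2g) < γ(m₀+2)`, the value is smaller than the closed
  form for all `(l, d)` with `l ≥ m₀-n₀` and `2l-d ≥ n₀`.
* In particular it is smaller for `l ≥ 4g+2a-3`, `2l-d ≥ 2a` if `(a-2)² > 4g` (a bipartite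
  circulant graph): for at least about `4 √g` vertices the closed form fails from excess
  `4g + O(√g)` on.
* In particular it is smaller for `l ≥ 2N+6g-5`, `2l-d ≥ N` if `N ≥ 5` and `(N-3)(N-4) > 12g` (a
  circulant graph). By the theorem of Ringel and Youngs these are the `N` for which `K_N` does not
  embed on `S_g`: every column `n = 2l-d` in which the closed form is not always right fails from
  excess `2n+6g-5` on.

Proof: many edge-disjoint cycles of length at most `2r` are found in a multigraph with few vertices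
by counting non-backtracking walks in a part of large minimum degree; they can be made faces.
-/

namespace Pool.Agent.Results.MP_b69e89_co.FewVertices

open KernelCount

/-- Every cycle of the multigraph with vertex set `Fin n` and edges `i : Fin m`, where `i` joins
`f (i, false)` and `f (i, true)`, has at least `γ` edges. The half-edge `h` starts at `f h` and is
the reverse of `(h.1, !h.2)`; a cycle is given by the set `S` of its directed edges, which start at
different vertices, and the successor `nxt h` of each of them. -/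
def CyclesGE {n m : ℕ} (f : Fin m × Bool → Fin n) (γ : ℕ) : Prop :=
  ∀ (S : Set (Fin m × Bool)) (nxt : Fin m × Bool → Fin m × Bool), S.Nonempty →
    (∀ h ∈ S, nxt h ∈ S ∧ f (nxt h) = f (h.1, !h.2) ∧ nxt h ≠ (h.1, !h.2)) →
    (∀ h ∈ S, ∀ h' ∈ S, f h = f h' → h = h') →
    (∀ h ∈ S, ∀ h' ∈ S, nxt h = nxt h' → h = h') → γ ≤ S.ncard

theorem result :
    (∀ g l d δ r : ℕ, d ≤ 2 * l → 1 ≤ r → 2 * l - d < δ ^ r →
      l ≤ 2 * g + 1 + max 1 ((3 * l - d - δ * (2 * l - d)) / (6 * r)) →
      kernelCount g (2 * l - d) (3 * l - d) = closed (2 * l - d) (3 * l - d)) ∧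
    (∀ g l d r : ℕ, d ≤ 2 * l → 1 ≤ r → 2 * l - d < (l / (2 * (2 * l - d))) ^ r →
      l ≤ 2 * g + 1 + max 1 (l / (12 * r)) →
      kernelCount g (2 * l - d) (3 * l - d) = closed (2 * l - d) (3 * l - d)) ∧
    (∀ (g n m γ : ℕ) (f : Fin m × Bool → Fin n), 1 ≤ n → (∀ v, 3 ≤ Nat.card {h // f h = v}) →
      CyclesGE f γ → 2 * m + γ * (n + 2 * g) < γ * (m + 2) →
      ∀ l d : ℕ, m ≤ n + l → n + d ≤ 2 * l →
        kernelCount g (2 * l - d) (3 * l - d) < closed (2 * l - d) (3 * l - d)) ∧
    (∀ g a l d : ℕ, 3 ≤ a → 4 * g < (a - 2) ^ 2 → 4 * g + 2 * a ≤ l + 3 → 2 * a + d ≤ 2 * l →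
      kernelCount g (2 * l - d) (3 * l - d) < closed (2 * l - d) (3 * l - d)) ∧
    (∀ g N l d : ℕ, 5 ≤ N → 12 * g < (N - 3) * (N - 4) → 2 * N + 6 * g ≤ l + 5 →
      N + d ≤ 2 * l →
      kernelCount g (2 * l - d) (3 * l - d) < closed (2 * l - d) (3 * l - d)) := by
  refine ⟨fun g l d δ r hd hr hn hl => ?_, fun g l d r hd hr hn hl => ?_,
    fun g n m γ f hn hf hγ h l d hl hd => closed_fails_girth f hn hf hγ h hl hd,
    fun g a l d ha hg hl hd => closed_fails_bip ha hg hl hd,
    fun g N l d hN hg hl hd => closed_fails_column hN hg hl hd⟩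
  · have e : 3 * l - d - (2 * l - d) = l := by omega
    exact kernelCount_of_dense hr hn (by rw [e]; exact hl)
  · have e : 3 * l - d = 2 * l - d + l := by omega
    rw [e]
    exact kernelCount_of_few hr hn hl

end Pool.Agent.Results.MP_b69e89_co.FewVertices
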