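import Mathlib
import Pool.Agent.Lib.MP_b69e89_co.Trans

/-!
# MP_b69e89_co : weighted kernels on `S_g` from simple graphs on `S_g`

For every `g`, `n`, `m` the weighted number `|K_g(n, m)|` of kernels equals the explicit finite sum
`∑_{k ≤ n} ∑_i T n m k i * G_g(k, i)`, where `G_g(k, i)` is the number of simple graphs with vertex
set `[k]` and `i` edges embeddable on `S_g`, and the rational numbers `T n m k i` are given by an
explicit finite sum not depending on `g`. The transformation is unitriangular: `T n m n m = 1` and
`T n m n i = 0` for `i > m`, so the numbers `G_g` are determined by the numbers `|K_g|` as well.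
-/

namespace Pool.Agent.Results.MP_b69e89_co.SimpleGraphTransform

open Finset KernelCount

theorem result (g n m : ℕ) :
    kernelCount g n m = ∑ k ∈ range (n + 1), ∑ i ∈ range (k.choose 2 + 1),
      T n m k i * (simpleCount g k i : ℚ) ∧
    T n m n m = 1 ∧ ∀ i, m < i → T n m n i = 0 :=
  ⟨kernelCount_eq_T n m, by rw [T_self, P_self], fun i hi => by rw [T_self, P_eq_zero hi]⟩

end Pool.Agent.Results.MP_b69e89_co.SimpleGraphTransform
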